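import Pool.Agent.helper13.U4.Spec

set_option autoImplicit false

namespace Pool.Agent.U4

open Pool.Agent.UL

/-- two copies of `g` -/
def LB0_b (M τ r : ℕ) : Bool := g τ r || (decide (M ≤ r + 1) && g τ (r + 1 - M))

theorem LB0_ex1 (a b c : Bool) : ex1 a b c = true ↔
    ((a = true ∧ ¬ b = true ∧ ¬ c = true) ∨ (¬ a = true ∧ b = true ∧ ¬ c = true) ∨
      (¬ a = true ∧ ¬ b = true ∧ c = true)) := by
  cases a <;> cases b <;> cases c <;> simp [ex1]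

theorem LB0_lo (M τ r : ℕ) (h : r + 1 < M) : LB0_b M τ r = g τ r := by
  simp [LB0_b, Nat.not_le.mpr h]

theorem LB0_small (h2 : GPW_stmt) (τ r : ℕ) (h : 2 * τ < r) : g τ r = false := by
  by_contra hc
  rw [Bool.not_eq_false] at hc
  have := h2.2.2.2.1 τ r hc
  omega

theorem LB0_hi (h2 : GPW_stmt) (M τ r : ℕ) (h : M ≤ r + 1) (hr : 2 * τ < r) :
    LB0_b M τ r = g τ (r + 1 - M) := by
  unfold LB0_b
  rw [LB0_small h2 τ r hr]
  simp [h]

theorem LB0_stepA (h1 : GST_stmt) (h2 : GPW_stmt) (M τ : ℕ) (hM : 2 * (τ + 1) + 2 ≤ M) :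
    LB0_b M (τ + 1) 0 = LB0_b M τ 0 ∧
    LB0_b M (τ + 1) 1 = ex1 (LB0_b M τ 1) (LB0_b M τ 0) false ∧
    ∀ r, LB0_b M (τ + 1) (r + 2) = ex1 (LB0_b M τ (r + 2)) (LB0_b M τ (r + 1)) (LB0_b M τ r) := by
  obtain ⟨g0, g1, g2⟩ := h1
  have gz : ∀ d, g d 0 = true := h2.2.2.2.2.2.1
  refine ⟨?_, ?_, ?_⟩
  · rw [LB0_lo _ _ _ (by omega), LB0_lo _ _ _ (by omega), g0]
  · rw [LB0_lo _ _ _ (by omega), LB0_lo _ _ _ (by omega), LB0_lo _ _ _ (by omega), g1]
  · intro r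
    by_cases c1 : r + 3 < M
    · rw [LB0_lo _ _ _ (by omega), LB0_lo _ _ _ (by omega), LB0_lo _ _ _ (by omega),
        LB0_lo _ _ _ (by omega), g2]
    · by_cases c2 : r + 3 = M
      · rw [LB0_hi h2 M (τ + 1) (r + 2) (by omega) (by omega),
          LB0_hi h2 M τ (r + 2) (by omega) (by omega), LB0_lo M τ (r + 1) (by omega),
          LB0_lo M τ r (by omega), LB0_small h2 τ (r + 1) (by omega),
          LB0_small h2 τ r (by omega)]
        have h3 : r + 2 + 1 - M = 0 := by omega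
        rw [h3, gz, gz]
        rfl
      · by_cases c3 : r + 3 = M + 1
        · rw [LB0_hi h2 M (τ + 1) (r + 2) (by omega) (by omega),
            LB0_hi h2 M τ (r + 2) (by omega) (by omega),
            LB0_hi h2 M τ (r + 1) (by omega) (by omega),
            LB0_lo M τ r (by omega), LB0_small h2 τ r (by omega)]
          have h3 : r + 2 + 1 - M = 1 := by omega
          have h4 : r + 1 + 1 - M = 0 := by omega
          rw [h3, h4, g1]
        · obtain ⟨i, hi⟩ : ∃ i, r + 1 = M + i := ⟨r + 1 - M, by omega⟩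
          rw [LB0_hi h2 M (τ + 1) (r + 2) (by omega) (by omega),
            LB0_hi h2 M τ (r + 2) (by omega) (by omega),
            LB0_hi h2 M τ (r + 1) (by omega) (by omega),
            LB0_hi h2 M τ r (by omega) (by omega)]
          have h3 : r + 2 + 1 - M = i + 2 := by omega
          have h4 : r + 1 + 1 - M = i + 1 := by omega
          have h5 : r + 1 - M = i := by omega
          rw [h3, h4, h5, g2]

theorem LB0_full (h2 : GPW_stmt) (j : ℕ) (hj : 1 ≤ j) (r : ℕ) :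
    LB0_b (2 * 2 ^ j) (2 ^ j - 1) r = true ↔
      ((r % 4 ≠ 3 ∧ r + 2 ≤ 2 * 2 ^ j) ∨
        (2 * 2 ^ j ≤ r + 1 ∧ r % 4 ≠ 2 ∧ r + 3 ≤ 2 * (2 * 2 ^ j))) := by
  have h3 := h2.2.1 j hj
  obtain ⟨i, rfl⟩ : ∃ i, j = i + 1 := ⟨j - 1, by omega⟩
  have h4 : 2 ^ (i + 1) = 2 * 2 ^ i := by rw [pow_succ]; ring
  unfold LB0_b
  rw [Bool.or_eq_true, Bool.and_eq_true, decide_eq_true_iff, h3 r, h3 (r + 1 - 2 * 2 ^ (i + 1))]
  rw [h4]
  generalize 2 ^ i = m
  omega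

theorem LB0_zero (h2 : GPW_stmt) (M r : ℕ) (hM : 1 ≤ M) :
    LB0_b M 0 r = true ↔ (r = 0 ∨ r + 1 = M) := by
  have h3 := h2.2.2.2.2.1
  unfold LB0_b
  rw [Bool.or_eq_true, Bool.and_eq_true, decide_eq_true_iff, h3 r, h3 (r + 1 - M)]
  omega

theorem LB0_stepB (h2 : GPW_stmt) (j : ℕ) :
    LB0_b (2 * 2 ^ (j + 1)) 0 0 = LB0_b (2 * 2 ^ j) (2 ^ j - 1) 0 ∧
    LB0_b (2 * 2 ^ (j + 1)) 0 1 =
      ex1 (LB0_b (2 * 2 ^ j) (2 ^ j - 1) 1) (LB0_b (2 * 2 ^ j) (2 ^ j - 1) 0) false ∧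
    ∀ r, LB0_b (2 * 2 ^ (j + 1)) 0 (r + 2) =
      ex1 (LB0_b (2 * 2 ^ j) (2 ^ j - 1) (r + 2)) (LB0_b (2 * 2 ^ j) (2 ^ j - 1) (r + 1))
        (LB0_b (2 * 2 ^ j) (2 ^ j - 1) r) := by
  have hp : 1 ≤ 2 ^ j := Nat.one_le_two_pow
  have h4 : 2 ^ (j + 1) = 2 * 2 ^ j := by rw [pow_succ]; ring
  rcases Nat.eq_zero_or_pos j with hj | hj
  · subst hj
    have hz : ∀ r, (LB0_b (2 * 2 ^ 0) (2 ^ 0 - 1) r = true ↔ (r = 0 ∨ r = 1)) := by
      intro r
      have := LB0_zero h2 (2 * 2 ^ 0) r (by norm_num)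
      simp only [pow_zero, mul_one, Nat.sub_self] at this ⊢
      rw [this]
      omega
    have hz' : ∀ r, (LB0_b (2 * 2 ^ (0 + 1)) 0 r = true ↔ (r = 0 ∨ r = 3)) := by
      intro r
      have := LB0_zero h2 (2 * 2 ^ (0 + 1)) r (by norm_num)
      rw [this]
      norm_num
      omega
    refine ⟨?_, ?_, ?_⟩
    · rw [Bool.eq_iff_iff, hz, hz']; omega
    · rw [Bool.eq_iff_iff, LB0_ex1, hz, hz, hz']
      simp
    · intro r
      rw [Bool.eq_iff_iff, LB0_ex1, hz, hz, hz, hz']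
      omega
  · have hf := LB0_full h2 j hj
    have hz' : ∀ r, (LB0_b (2 * 2 ^ (j + 1)) 0 r = true ↔ (r = 0 ∨ r + 1 = 2 * (2 * 2 ^ j))) := by
      intro r
      have := LB0_zero h2 (2 * 2 ^ (j + 1)) r (by have := Nat.one_le_two_pow (n := j + 1); omega)
      rw [this, h4]
    obtain ⟨i, hi⟩ : ∃ i, j = i + 1 := ⟨j - 1, by omega⟩
    have h5 : 2 ^ j = 2 * 2 ^ i := by rw [hi, pow_succ]; ring
    have h6 : 1 ≤ 2 ^ i := Nat.one_le_two_pow
    refine ⟨?_, ?_, ?_⟩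
    · rw [Bool.eq_iff_iff, hf, hz', h5]
      generalize 2 ^ i = m at *
      omega
    · rw [Bool.eq_iff_iff, LB0_ex1, hf, hf, hz', h5]
      generalize 2 ^ i = m at *
      simp only [Bool.false_eq_true, not_false_eq_true, and_true, and_false, or_false]
      omega
    · intro r
      rw [Bool.eq_iff_iff, LB0_ex1, hf, hf, hf, hz', h5]
      generalize 2 ^ i = m at *
      omega

theorem LB0_blk (j t τ r : ℕ) (ht : t = 2 ^ j + τ) (hτ : τ < 2 ^ j) :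
    blk t r = LB0_b (2 * 2 ^ j) τ r := by
  have hlog : Nat.log 2 t = j := by
    apply Nat.log_eq_of_pow_le_of_lt_pow
    · omega
    · rw [pow_succ]; omega
  unfold blk LB0_b
  rw [hlog]
  have h1 : t - 2 ^ j = τ := by omega
  rw [h1]

theorem LB0_step (h1 : GST_stmt) (h2 : GPW_stmt) (t : ℕ) (ht : 1 ≤ t) :
    blk (t + 1) 0 = blk t 0 ∧ blk (t + 1) 1 = ex1 (blk t 1) (blk t 0) false ∧
    ∀ r, blk (t + 1) (r + 2) = ex1 (blk t (r + 2)) (blk t (r + 1)) (blk t r) := by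
  obtain ⟨j, τ, hj, hτ⟩ : ∃ j τ, t = 2 ^ j + τ ∧ τ < 2 ^ j := by
    refine ⟨Nat.log 2 t, t - 2 ^ Nat.log 2 t, ?_, ?_⟩
    · have := Nat.pow_log_le_self 2 (by omega : t ≠ 0)
      omega
    · have h3 := Nat.lt_pow_succ_log_self (by norm_num : 1 < 2) t
      rw [pow_succ] at h3
      have h4 := Nat.pow_log_le_self 2 (by omega : t ≠ 0)
      omega
  have hb := fun r => LB0_blk j t τ r hj hτ
  by_cases hc : τ + 1 < 2 ^ j
  · have hb' := fun r => LB0_blk j (t + 1) (τ + 1) r (by omega) hc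
    obtain ⟨a0, a1, a2⟩ := LB0_stepA h1 h2 (2 * 2 ^ j) τ (by omega)
    refine ⟨?_, ?_, ?_⟩
    · rw [hb', hb, a0]
    · rw [hb', hb, hb, a1]
    · intro r
      rw [hb', hb, hb, hb, a2]
  · have hτ' : τ = 2 ^ j - 1 := by omega
    have hb' := fun r => LB0_blk (j + 1) (t + 1) 0 r (by rw [pow_succ]; omega) (by positivity)
    obtain ⟨a0, a1, a2⟩ := LB0_stepB h2 j
    rw [hτ'] at hb
    refine ⟨?_, ?_, ?_⟩
    · rw [hb', hb, a0]
    · rw [hb', hb, hb, a1]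
    · intro r
      rw [hb', hb, hb, hb, a2]

theorem LB0_base (h2 : GPW_stmt) :
    blk 1 0 = p0 0 ∧ blk 1 1 = ex1 (p0 1) (p0 0) false ∧
    ∀ r, blk 1 (r + 2) = ex1 (p0 (r + 2)) (p0 (r + 1)) (p0 r) := by
  have hb : ∀ r, (blk 1 r = true ↔ (r = 0 ∨ r = 1)) := by
    intro r
    rw [LB0_blk 0 1 0 r (by norm_num) (by norm_num), LB0_zero h2 _ _ (by norm_num)]
    norm_num
    omega
  have hp : ∀ r, (p0 r = true ↔ (r = 0 ∨ (2 ≤ r ∧ r % 4 ≠ 1))) := by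
    intro r
    unfold p0
    rw [decide_eq_true_iff]
  refine ⟨?_, ?_, ?_⟩
  · rw [Bool.eq_iff_iff, hb, hp]; omega
  · rw [Bool.eq_iff_iff, LB0_ex1, hb, hp, hp]
    simp
  · intro r
    rw [Bool.eq_iff_iff, LB0_ex1, hb, hp, hp, hp]
    omega

theorem LB0 (h1 : GST_stmt) (h2 : GPW_stmt) : LB0_stmt := by
  intro v ρ x hx h0 t ht
  induction t, ht using Nat.le_induction with
  | base =>
    intro hv r hr
    obtain ⟨b0, b1, b2⟩ := LB0_base h2
    match r, hr with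
    | 0, hr => rw [hx.s0 0 (by omega), h0 0 hr, b0]
    | 1, hr =>
      rw [hx.s1 0 (by omega), h0 1 hr, h0 0 (by omega), b1]
    | r + 2, hr =>
      rw [hx.s2 0 (by omega) r, h0 (r + 2) hr, h0 (r + 1) (by omega), h0 r (by omega), b2]
  | succ t ht ih =>
    intro hv r hr
    have ih' := ih (by omega)
    obtain ⟨b0, b1, b2⟩ := LB0_step h1 h2 t ht
    match r, hr with
    | 0, hr => rw [hx.s0 t (by omega), ih' 0 hr, b0]
    | 1, hr =>
      rw [hx.s1 t (by omega), ih' 1 hr, ih' 0 (by omega), b1]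
    | r + 2, hr =>
      rw [hx.s2 t (by omega) r, ih' (r + 2) hr, ih' (r + 1) (by omega), ih' r (by omega), b2]

end Pool.Agent.U4
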